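import Pool.Agent.N140.Rec.Main

/-!
# The degree of the dual variety of a reciprocal linear space

For linear forms `ℓ 0, …, ℓ n` which span the dual of `ℂ ^ (d + 1)` and whose matroid is connected,
the dual variety of the reciprocal linear space is a hypersurface of degree `2 ^ d * β`.
-/

set_option autoImplicit false

namespace Pool.Agent.Results.MP_0aec2a_ag.DualDegree

open MvPolynomial Module
open scoped LinearAlgebra.Projectivization

/-- Projective `n`-space over `ℂ`. It is also used as the dual projective space: the point `u`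
is the hyperplane `∑ i, u i * x i = 0`. -/
abbrev PP (n : ℕ) : Type := ℙ ℂ (Fin (n + 1) → ℂ)

variable {n d : ℕ}

/-- The (homogeneous) polynomial `F` vanishes at every point of `S`. -/
def Vanishes (F : MvPolynomial (Fin (n + 1)) ℂ) (S : Set (PP n)) : Prop :=
  ∀ x ∈ S, eval x.rep F = 0

/-- The Zariski closure of a set of points of projective space: the common zeros of all the
homogeneous polynomials which vanish on the set. -/
def zariskiClosure (S : Set (PP n)) : Set (PP n) :=
  {x | ∀ (m : ℕ) (F : MvPolynomial (Fin (n + 1)) ℂ), F.IsHomogeneous m → Vanishes F S →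
    eval x.rep F = 0}

/-- The affine cone over the embedded projective tangent space of `X` at `x`: the vectors `y` with
`∑ i, (∂F/∂x_i)(x) * y i = 0` for all homogeneous polynomials `F` vanishing on `X`. -/
def tangentSpace (X : Set (PP n)) (x : PP n) : Submodule ℂ (Fin (n + 1) → ℂ) where
  carrier := {y | ∀ (m : ℕ) (F : MvPolynomial (Fin (n + 1)) ℂ), F.IsHomogeneous m →
    Vanishes F X → ∑ i, eval x.rep (pderiv i F) * y i = 0}
  zero_mem' := by
    intro m F _ _
    simp
  add_mem' := by
    intro a b ha hb m F h1 h2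
    simp only [Pi.add_apply, mul_add, Finset.sum_add_distrib, ha m F h1 h2, hb m F h1 h2, add_zero]
  smul_mem' := by
    intro c a ha m F h1 h2
    simp only [Pi.smul_apply, smul_eq_mul, mul_left_comm _ c, ← Finset.mul_sum, ha m F h1 h2,
      mul_zero]

/-- `x` is a smooth point of the (irreducible) variety `X`: the dimension of the tangent space
at `x` is the least one among the points of `X`. -/
def IsSmoothPoint (X : Set (PP n)) (x : PP n) : Prop :=
  x ∈ X ∧ ∀ y ∈ X, finrank ℂ (tangentSpace X x) ≤ finrank ℂ (tangentSpace X y)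

/-- The dual variety: the Zariski closure of the set of the hyperplanes which are tangent to `X`
at some smooth point. -/
def dualVariety (X : Set (PP n)) : Set (PP n) :=
  zariskiClosure {u | ∃ x, IsSmoothPoint X x ∧ ∀ y ∈ tangentSpace X x, ∑ i, u.rep i * y i = 0}

/-- `Y` is an (irreducible) hypersurface of degree `D`: the zero set of an irreducible homogeneous
polynomial of degree `D`. -/
def IsHypersurfaceOfDegree (Y : Set (PP n)) (D : ℕ) : Prop :=
  ∃ F : MvPolynomial (Fin (n + 1)) ℂ, Irreducible F ∧ F.IsHomogeneous D ∧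
    Y = {x | eval x.rep F = 0}

/-- The rank function of the matroid of the linear forms: the dimension of the span of the `ℓ i`
with `i ∈ S`. -/
noncomputable def rankOf (ℓ : Fin (n + 1) → Module.Dual ℂ (Fin (d + 1) → ℂ))
    (S : Finset (Fin (n + 1))) : ℕ :=
  finrank ℂ (Submodule.span ℂ (ℓ '' (S : Set (Fin (n + 1)))))

/-- The beta invariant `(-1) ^ r(E) * ∑ S ⊆ E, (-1) ^ |S| * r(S)`. -/
noncomputable def betaInv (ℓ : Fin (n + 1) → Module.Dual ℂ (Fin (d + 1) → ℂ)) : ℤ :=
  (-1) ^ rankOf ℓ Finset.univ * ∑ S : Finset (Fin (n + 1)), (-1) ^ S.card * (rankOf ℓ S : ℤ)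

/-- The matroid is connected: `r(E) < r(S) + r(E \ S)` for every proper nonempty `S`. -/
def IsConn (ℓ : Fin (n + 1) → Module.Dual ℂ (Fin (d + 1) → ℂ)) : Prop :=
  ∀ S : Finset (Fin (n + 1)), S.Nonempty → Sᶜ.Nonempty →
    rankOf ℓ Finset.univ < rankOf ℓ S + rankOf ℓ Sᶜ

/-- The linear subspace `L = {(ℓ 0 t : … : ℓ n t)}` of projective space. -/
def linearSpace (ℓ : Fin (n + 1) → Module.Dual ℂ (Fin (d + 1) → ℂ)) : Set (PP n) :=
  {x | ∃ t : Fin (d + 1) → ℂ, ∀ i, x.rep i = ℓ i t}

/-- The reciprocal linear space: the Zariski closure of the set of the points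
`(1 / x 0 : … : 1 / x n)` for the points `x` of `L` all of whose coordinates are nonzero. -/
def reciprocal (ℓ : Fin (n + 1) → Module.Dual ℂ (Fin (d + 1) → ℂ)) : Set (PP n) :=
  zariskiClosure {y | ∃ x ∈ linearSpace ℓ, (∀ i, x.rep i ≠ 0) ∧
    ∃ c : ℂ, ∀ i, y.rep i = c * (x.rep i)⁻¹}

/-- If the matroid of the linear forms is connected, the dual variety of the reciprocal linear
space is a hypersurface of degree `2 ^ d * β`. -/
theorem result {n d : ℕ} (ℓ : Fin (n + 1) → Module.Dual ℂ (Fin (d + 1) → ℂ))
    (hspan : Submodule.span ℂ (Set.range ℓ) = ⊤) (hconn : IsConn ℓ) :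
    ∃ D : ℕ, (D : ℤ) = 2 ^ d * betaInv ℓ ∧
      IsHypersurfaceOfDegree (dualVariety (reciprocal ℓ)) D :=
  Pool.Agent.N140.Rec.main hspan hconn

end Pool.Agent.Results.MP_0aec2a_ag.DualDegree
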